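import Pool.Agent.Helper74.HG.GoalsB
import Pool.Agent.Helper73.HG.MAT

/-!
# Project HG (MP_aa7fc1_ag): packet HG-MATB (disjoint triples, bipartite hypergraphs)
-/

namespace Pool.Agent.Helper34.HG.MATB

open MvPolynomial Pool.Agent.Helper74.HG Pool.Agent.Helper84.HG.WD Pool.Agent.Helper73.HG.MAT

noncomputable section

/-- The grade of a vertex as a number. -/
def gv {σ : Type} (c : σ → Bool) (i : σ) : ℕ := if c i = true then 1 else 0

/-- The grade of an edge. -/
def gs {σ : Type} (c : σ → Bool) (e : Finset σ) : ℕ := ∑ i ∈ e, gv c i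

theorem gs_card {σ : Type} (c : σ → Bool) (e : Finset σ) :
    (e.filter (fun i => c i = true)).card = gs c e := by
  rw [Finset.card_filter]
  rfl

theorem gr_iff {σ : Type} {c : σ → Bool} {H : Finset (Finset σ)} :
    Gr c H ↔ ∀ e ∈ H, gs c e = 1 := by
  unfold Gr
  refine forall_congr' fun e => forall_congr' fun _ => ?_
  rw [gs_card]

theorem gs_pr {σ : Type} (c : σ → Bool) {a b : σ} (h : a ≠ b) :
    gs c (pr a b) = gv c a + gv c b := by
  let _ := Classical.decEq σ
  exact Finset.sum_pair h

theorem gs_toF {σ : Type} (c : σ → Bool) {l : List σ} (h : l.Nodup) :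
    gs c (toF l) = (l.map (gv c)).sum := by
  let _ := Classical.decEq σ
  exact List.sum_toFinset _ h

/-- The grading after a step with `a = X x`. -/
def gr2 {σ : Type} (c : σ → Bool) (x : σ) : Option (Option σ) → Bool
  | none => c x
  | some none => !c x
  | some (some i) => c i

theorem gv_em {σ : Type} (c : σ → Bool) (x i : σ) : gv (gr2 c x) (em σ i) = gv c i := rfl

theorem gv_none {σ : Type} (c : σ → Bool) (x : σ) : gv (gr2 c x) none = gv c x := rfl

theorem gv_snone {σ : Type} (c : σ → Bool) (x : σ) :
    gv c x + gv (gr2 c x) (some none) = 1 := by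
  unfold gv gr2
  cases c x <;> rfl

theorem gr_up {σ : Type} {c : σ → Bool} {H : Finset (Finset σ)} (h : ∀ e ∈ H, gs c e = 1)
    (x : σ) : ∀ e ∈ upH H, gs (gr2 c x) e = 1 := by
  intro e he
  unfold upH at he
  rw [Finset.mem_map] at he
  obtain ⟨e', he', rfl⟩ := he
  rw [← h e' he']
  show ∑ i ∈ e'.map (em σ), gv (gr2 c x) i = ∑ i ∈ e', gv c i
  rw [Finset.sum_map]
  rfl

theorem gr_H1 {σ : Type} {c : σ → Bool} {H : Finset (Finset σ)} (h : ∀ e ∈ H, gs c e = 1)
    (x : σ) : ∀ e ∈ H1 H x, gs (gr2 c x) e = 1 := by
  intro e he
  unfold H1 H0 at he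
  rcases mem_ins.1 he with rfl | he
  · rw [gs_pr _ (em_ne x), gv_em]
    exact gv_snone c x
  · rcases mem_ins.1 he with rfl | he
    · rw [gs_pr _ none_ne, gv_none]
      exact gv_snone c x
    · exact gr_up h x e he

theorem gr_NH {σ : Type} {c : σ → Bool} {G : Finset (Finset σ)} (h : Gr c G) {x y z : σ}
    (hxy : x ≠ y) (hxz : x ≠ z) (hyz : y ≠ z)
    (he : ((toF [x, y, z]).filter (fun i => c i = true)).card = 1) :
    Gr (gr2 (gr2 c x) none) (NH G x y z) := by
  rw [gs_card, gs_toF _ (by simp [hxy, hxz, hyz])] at he
  rw [gr_iff] at h ⊢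
  intro e hmem
  unfold NH at hmem
  rcases mem_ins.1 hmem with rfl | hmem
  · rw [gs_toF _ (nd hyz), ← he]
    rfl
  · exact gr_H1 (gr_H1 h x) none e hmem

theorem main (htr : TRA) (hst : STE) (his : ISO) : ∀ (n : ℕ) (σ : Type) [Fintype σ]
    (c : σ → Bool) (H : Finset (Finset σ)), Cub H → Gr c H → Sub3 H → mu H ≤ n →
    ∃ (τ : Type) (_ : Fintype τ) (c' : τ → Bool) (H' : Finset (Finset τ)), Cub H' ∧ Gr c' H' ∧
      Sub3 H' ∧ Mat3 H' ∧ Red (hyp H) (hyp H') := by
  intro n
  induction n using Nat.strong_induction_on with
  | _ n ih =>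
    intro σ _ c H hH hgr hS hn
    classical
    by_cases hM : Mat3 H
    · exact ⟨σ, inferInstance, c, H, hH, hgr, hS, hM,
        his AlgEquiv.refl (fun i => constantCoeff_X _ i) (hyp H)⟩
    · unfold Mat3 at hM
      push Not at hM
      obtain ⟨e₁, h1, e₂, h2, hc1, hc2, hne, hd⟩ := hM
      rw [Finset.not_disjoint_iff] at hd
      obtain ⟨x, hx1, hx2⟩ := hd
      have hc : (e₂.erase x).card = 2 := by
        rw [Finset.card_erase_of_mem hx2, hc2]
      obtain ⟨y, z, hyz, he⟩ := Finset.card_eq_two.1 hc
      have hy : y ∈ e₂.erase x := by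
        rw [he]
        simp
      have hz : z ∈ e₂.erase x := by
        rw [he]
        simp
      have hxy : x ≠ y := (Finset.ne_of_mem_erase hy).symm
      have hxz : x ≠ z := (Finset.ne_of_mem_erase hz).symm
      have hE : e₂ = toF [x, y, z] := by
        rw [← Finset.insert_erase hx2, he]
        ext v
        rw [mem_toF]
        simp
      set G := H.erase e₂ with hGdef
      have hG : toF [x, y, z] ∉ G := by
        rw [← hE, hGdef]
        exact Finset.notMem_erase _ _
      have hHG : H = ins (toF [x, y, z]) G := by
        ext e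
        rw [mem_ins, ← hE, hGdef, Finset.mem_erase]
        constructor
        · intro h
          by_cases hee : e = e₂
          · exact Or.inl hee
          · exact Or.inr ⟨hee, h⟩
        · rintro (rfl | h)
          · exact h2
          · exact h.2
      have hcub : Cub (NH G x y z) := by
        unfold NH
        refine cub_ins (cub_H1 (cub_H1 ?_ x) none) (Or.inr (c3 hyz))
        intro e he
        exact hH e (Finset.mem_of_mem_erase he)
      have hgrN : Gr (gr2 (gr2 c x) none) (NH G x y z) := by
        refine gr_NH ?_ hxy hxz hyz ?_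
        · intro e he
          exact hgr e (Finset.mem_of_mem_erase he)
        · rw [← hE]
          exact hgr e₂ h2
      have hsub : Sub3 (NH G x y z) := by
        rw [sub3_iff] at hS ⊢
        intro v
        match v with
        | none =>
          rw [D_NH_none _ G x hyz, ind_t trivial]
          omega
        | some none =>
          rw [D_NH_snone _ G x hyz, ind_t trivial]
          omega
        | some (some none) =>
          rw [D_NH_en _ G x hyz, ind_t trivial]
          omega
        | some (some (some none)) =>
          rw [D_NH_esn _ G x hyz, ind_t trivial]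
          omega
        | some (some (some (some i))) =>
          have h1 := D_NH_em (fun _ => True) G x hyz i
          rw [em_apply, em_apply] at h1
          have h2 := hS i
          rw [hHG, D_split _ G hxy hxz hyz hG] at h2
          rw [h1]
          exact h2
      have hmu : mu (NH G x y z) < mu H := by
        have hx : 2 ≤ D (fun k => k = 3) H x := by
          rw [D_card]
          have hsub : ({e₁, e₂} : Finset (Finset σ)) ⊆
              H.filter (fun e => x ∈ e ∧ (fun k => k = 3) e.card) := by
            intro e he
            rw [Finset.mem_insert, Finset.mem_singleton] at he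
            rw [Finset.mem_filter]
            rcases he with rfl | rfl
            · exact ⟨h1, hx1, hc1⟩
            · exact ⟨h2, hx2, hc2⟩
          have := Finset.card_le_card hsub
          rw [Finset.card_pair hne] at this
          exact this
        have hsum : mu (NH G x y z) =
            ∑ i : σ, (D (fun k => k = 3) (NH G x y z) (em _ (em σ i)) - 1) := by
          unfold mu
          rw [Fintype.sum_option, Fintype.sum_option, Fintype.sum_option, Fintype.sum_option]
          rw [D_NH_none _ G x hyz, D_NH_snone _ G x hyz, D_NH_en _ G x hyz, D_NH_esn _ G x hyz,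
            ind_f (p := (2 : ℕ) = 3) (by omega), ind_t (p := (3 : ℕ) = 3) rfl]
          simp [em_apply]
        rw [hsum]
        unfold mu
        have hle : ∀ i : σ, D (fun k => k = 3) (NH G x y z) (em _ (em σ i)) +
            ind (i = x) = D (fun k => k = 3) H i := by
          intro i
          rw [D_NH_em _ G x hyz]
          conv_rhs => rw [hHG]
          rw [D_split _ G hxy hxz hyz hG, ind_f (p := i = x ∧ 2 = 3) (by omega)]
          have : ind (i = x ∧ 3 = 3) = ind (i = x) := by
            congr 1
            simp
          rw [this]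
          omega
        refine Finset.sum_lt_sum (fun i _ => ?_) ⟨x, Finset.mem_univ _, ?_⟩
        · have := hle i
          omega
        · have := hle x
          rw [ind_t rfl] at this
          omega
      obtain ⟨τ, i, c', H', k1, k0, k2, k3, k4⟩ :=
        ih (mu (NH G x y z)) (by omega) _ _ _ hcub hgrN hsub le_rfl
      refine ⟨τ, i, c', H', k1, k0, k2, k3, htr _ _ _ ?_ k4⟩
      rw [hHG]
      exact red_NH htr hst G hxy hxz hyz hG

end

/-- Packet HG-MATB. -/
theorem t (htr : TRA) (hst : STE) (his : ISO) : MATB := by
  intro σ _ c H hH hgr hS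
  exact main htr hst his (mu H) σ c H hH hgr hS le_rfl

end Pool.Agent.Helper34.HG.MATB
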